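import Pool.Agent.Helper75.SatQ.Lower

/-!
Translation between subgraphs of the hypercube and direction sets.
-/

set_option autoImplicit false

namespace Pool.Agent.Helper75.SatQ

theorem fl_apply {n : ℕ} (x : Fin n → ZMod 2) (i j : Fin n) :
    fl x i j = if j = i then x j + 1 else x j := by
  unfold fl
  rw [Pi.add_apply]
  split_ifs with h
  · subst h
    rw [Pi.single_eq_same]
  · rw [Pi.single_eq_of_ne h, add_zero]

theorem fl_ne {n : ℕ} (x : Fin n → ZMod 2) (i : Fin n) : fl x i ≠ x := by
  intro h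
  have := congrFun h i
  rw [fl_apply, if_pos rfl] at this
  revert this
  generalize x i = a
  revert a
  decide

theorem fl_inj {n : ℕ} {x : Fin n → ZMod 2} {i j : Fin n} (h : fl x i = fl x j) : i = j := by
  by_contra hij
  have := congrFun h i
  rw [fl_apply, if_pos rfl, fl_apply, if_neg hij] at this
  revert this
  generalize x i = a
  revert a
  decide

theorem adj_iff {n : ℕ} {x y : Fin n → ZMod 2} : (Q n).Adj x y ↔ ∃ i, y = fl x i := by
  show hammingDist x y = 1 ↔ _
  unfold hammingDist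
  rw [Finset.card_eq_one]
  constructor
  · rintro ⟨i, hi⟩
    refine ⟨i, ?_⟩
    funext j
    rw [fl_apply]
    have h1 : x j ≠ y j ↔ j = i := by
      have := Finset.ext_iff.1 hi j
      simpa using this
    split_ifs with hj
    · have h2 := h1.2 hj
      revert h2
      generalize x j = a
      generalize y j = b
      revert a b
      decide
    · by_contra hne
      exact hj (h1.1 (Ne.symm hne))
  · rintro ⟨i, rfl⟩
    refine ⟨i, ?_⟩
    ext j
    simp only [Finset.mem_filter, Finset.mem_univ, true_and, Finset.mem_singleton]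
    rw [fl_apply]
    split_ifs with hj
    · simp [hj]
    · simp [hj]

section

variable {n : ℕ} (G : SimpleGraph (Fin n → ZMod 2))

open Classical in
/-- The directions of the edges at `x`. -/
noncomputable def dirs (x : Fin n → ZMod 2) : Finset (Fin n) :=
  Finset.univ.filter fun i => G.Adj x (fl x i)

theorem mem_dirs {x : Fin n → ZMod 2} {i : Fin n} : i ∈ dirs G x ↔ G.Adj x (fl x i) := by
  simp [dirs]

theorem dirs_symm (x : Fin n → ZMod 2) (i : Fin n) (h : i ∈ dirs G x) : i ∈ dirs G (fl x i) := by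
  rw [mem_dirs] at h ⊢
  rw [fl_fl]
  exact h.symm

theorem two_card_edges (hG : G ≤ Q n) : 2 * G.edgeSet.ncard = ∑ x, (dirs G x).card := by
  classical
  have h1 : G.edgeSet.ncard = G.edgeFinset.card := by
    rw [← SimpleGraph.coe_edgeFinset, Set.ncard_coe_finset]
  rw [h1, ← SimpleGraph.sum_degrees_eq_twice_card_edges]
  refine Finset.sum_congr rfl fun x _ => ?_
  unfold SimpleGraph.degree
  symm
  refine Finset.card_bij (fun i _ => fl x i) ?_ ?_ ?_
  · intro i hi
    rw [mem_dirs] at hi
    simpa using hi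
  · intro i _ j _ h
    exact fl_inj h
  · intro y hy
    rw [SimpleGraph.mem_neighborFinset] at hy
    obtain ⟨i, rfl⟩ := adj_iff.1 (hG hy)
    exact ⟨i, (mem_dirs G).2 hy, rfl⟩

/-- A square face in `G`. -/
def Face (z : Fin n → ZMod 2) (k l : Fin n) : Prop :=
  k ≠ l ∧ G.Adj z (fl z k) ∧ G.Adj z (fl z l) ∧ G.Adj (fl z k) (fl (fl z k) l) ∧
    G.Adj (fl z l) (fl (fl z l) k)

/-- The parametrization of a face. -/
def face {n : ℕ} (z : Fin n → ZMod 2) (k l : Fin n) (v : Fin 2 → ZMod 2) : Fin n → ZMod 2 :=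
  z + Pi.single k (v 0) + Pi.single l (v 1)

theorem face_fl_zero {n : ℕ} (z : Fin n → ZMod 2) (k l : Fin n) (v : Fin 2 → ZMod 2) :
    face z k l (fl v 0) = fl (face z k l v) k := by
  unfold face fl
  simp only [Pi.add_apply, Pi.single_eq_same, ne_eq, one_ne_zero, not_false_eq_true,
    Pi.single_eq_of_ne, add_zero, Pi.single_add]
  abel

theorem face_fl_one {n : ℕ} (z : Fin n → ZMod 2) (k l : Fin n) (v : Fin 2 → ZMod 2) :
    face z k l (fl v 1) = fl (face z k l v) l := by
  unfold face fl
  simp only [Pi.add_apply, Pi.single_eq_same, ne_eq, zero_ne_one, not_false_eq_true,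
    Pi.single_eq_of_ne, add_zero, Pi.single_add]
  abel

theorem face_inj {n : ℕ} (z : Fin n → ZMod 2) {k l : Fin n} (hkl : k ≠ l) :
    Function.Injective (face z k l) := by
  intro v w h
  have h1 := congrFun h k
  have h2 := congrFun h l
  unfold face at h1 h2
  simp only [Pi.add_apply, Pi.single_eq_same, ne_eq, hkl, hkl.symm, not_false_eq_true,
    Pi.single_eq_of_ne, add_zero] at h1 h2
  funext i
  fin_cases i
  · exact add_left_cancel h1
  · exact add_left_cancel h2

theorem face_cases {n : ℕ} (z : Fin n → ZMod 2) (k l : Fin n) (v : Fin 2 → ZMod 2) :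
    (v 1 = 0 ∧ (face z k l v = z ∨ face z k l v = fl z k)) ∨
      (v 1 = 1 ∧ (face z k l v = fl z l ∨ face z k l v = fl (fl z l) k)) := by
  have h0 : v 0 = 0 ∨ v 0 = 1 := by
    generalize v 0 = a
    revert a
    decide
  have h1 : v 1 = 0 ∨ v 1 = 1 := by
    generalize v 1 = a
    revert a
    decide
  unfold face fl
  rcases h1 with h1 | h1 <;> rcases h0 with h0 | h0 <;> simp [h0, h1]
  abel

theorem exists_copy {z : Fin n → ZMod 2} {k l : Fin n} (h : Face G z k l) :
    ∃ f : SimpleGraph.Copy (Q 2) G, ∀ v, f v = face z k l v := by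
  obtain ⟨hkl, h1, h2, h3, h4⟩ := h
  have hk : ∀ v, G.Adj (face z k l v) (fl (face z k l v) k) := by
    intro v
    rcases face_cases z k l v with ⟨-, h | h⟩ | ⟨-, h | h⟩ <;> rw [h]
    · exact h1
    · rw [fl_fl]; exact h1.symm
    · exact h4
    · rw [fl_fl]; exact h4.symm
  have hl : ∀ v, G.Adj (face z k l v) (fl (face z k l v) l) := by
    intro v
    rcases face_cases z k l v with ⟨-, h | h⟩ | ⟨-, h | h⟩ <;> rw [h]
    · exact h2
    · exact h3
    · rw [fl_fl]; exact h2.symm
    · rw [fl_comm (fl z l) k l, fl_fl, fl_comm z l k]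
      exact h3.symm
  refine ⟨⟨⟨face z k l, ?_⟩, face_inj z hkl⟩, fun v => rfl⟩
  intro v w hvw
  obtain ⟨i, rfl⟩ := adj_iff.1 hvw
  fin_cases i
  · show G.Adj _ (face z k l (fl v 0))
    rw [face_fl_zero]
    exact hk v
  · show G.Adj _ (face z k l (fl v 1))
    rw [face_fl_one]
    exact hl v

theorem copy_face (hG : G ≤ Q n) (f : SimpleGraph.Copy (Q 2) G) : ∃ z k l, Face G z k l := by
  let o : Fin 2 → ZMod 2 := 0
  have hadj : ∀ (v : Fin 2 → ZMod 2) (i : Fin 2), G.Adj (f v) (f (fl v i)) := fun v i =>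
    f.toHom.map_adj (adj_iff.2 ⟨i, rfl⟩)
  have hinj : Function.Injective f := f.injective
  obtain ⟨k, hk⟩ := adj_iff.1 (hG (hadj o 0))
  obtain ⟨l, hl⟩ := adj_iff.1 (hG (hadj o 1))
  obtain ⟨l', hl'⟩ := adj_iff.1 (hG (hadj (fl o 0) 1))
  obtain ⟨k', hk'⟩ := adj_iff.1 (hG (hadj (fl o 1) 0))
  have hkl : k ≠ l := by
    rintro rfl
    have := hinj (hk.trans hl.symm)
    exact absurd (fl_inj this) (by decide)
  have e1 : fl (fl (f o) k) l' = fl (fl (f o) l) k' := by
    rw [← hk, ← hl, ← hl', ← hk', fl_comm]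
  have hl'k : l' ≠ k := by
    rintro rfl
    rw [hk, fl_fl] at hl'
    have := hinj hl'
    have h2 := congrFun this 0
    rw [fl_apply, fl_apply] at h2
    simp [o] at h2
  -- identify the directions
  have hk'k : k' = k := by
    by_contra hne
    have h2 := congrFun e1 k
    rw [fl_apply, fl_apply, fl_apply, fl_apply, if_neg (Ne.symm hl'k), if_pos rfl,
      if_neg (Ne.symm hne), if_neg hkl] at h2
    revert h2
    generalize f o k = a
    revert a
    decide
  have hl'l : l' = l := by
    rw [hk'k, fl_comm (f o) l k] at e1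
    exact fl_inj e1
  refine ⟨f o, k, l, hkl, ?_, ?_, ?_, ?_⟩
  · rw [← hk]; exact hadj o 0
  · rw [← hl]; exact hadj o 1
  · have := hadj (fl o 0) 1
    rw [hl', hk, hl'l] at this
    exact this
  · have := hadj (fl o 1) 0
    rw [hk', hl, hk'k] at this
    exact this

end

end Pool.Agent.Helper75.SatQ
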