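import Mathlib

/-!
Saturated and semi-saturated subgraphs of the hypercube for the square `Q 2`.
-/

set_option autoImplicit false

namespace Pool.Agent.Helper75.SatQ

/-- The hypercube graph on `{0,1}^n` (functions `Fin n → ZMod 2`): two vertices are adjacent when
they differ in exactly one coordinate. -/
def Q (n : ℕ) : SimpleGraph (Fin n → ZMod 2) where
  Adj x y := hammingDist x y = 1
  symm := ⟨by
    intro x y h
    rw [hammingDist_comm]
    exact h⟩
  loopless := ⟨by
    intro x h
    simp at h⟩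

/-- `G` is `(Q_n, Q_2)`-saturated: it is a spanning subgraph of `Q n` with no copy of `Q 2`, and
adding any missing edge of `Q n` creates a copy of `Q 2`. -/
def IsSat (n : ℕ) (G : SimpleGraph (Fin n → ZMod 2)) : Prop :=
  G ≤ Q n ∧ (Q 2).Free G ∧
    ∀ x y, (Q n).Adj x y → ¬ G.Adj x y → ¬ (Q 2).Free (G ⊔ SimpleGraph.edge x y)

/-- `G` is `(Q_n, Q_2)`-semi-saturated: it is a spanning subgraph of `Q n`, and for every missing
edge `x y` of `Q n` the graph `G + x y` contains a copy of `Q 2` that uses the edge `x y`. -/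
def IsSemiSat (n : ℕ) (G : SimpleGraph (Fin n → ZMod 2)) : Prop :=
  G ≤ Q n ∧ ∀ x y, (Q n).Adj x y → ¬ G.Adj x y →
    ∃ f : SimpleGraph.Copy (Q 2) (G ⊔ SimpleGraph.edge x y),
      ∃ a b, (Q 2).Adj a b ∧ f a = x ∧ f b = y

/-- The numbers of edges of the saturated graphs. -/
def satSet (n : ℕ) : Set ℕ := {m | ∃ G, IsSat n G ∧ G.edgeSet.ncard = m}

/-- The numbers of edges of the semi-saturated graphs. -/
def semiSatSet (n : ℕ) : Set ℕ := {m | ∃ G, IsSemiSat n G ∧ G.edgeSet.ncard = m}

/-- The saturation number `sat(Q_n, Q_2)`. -/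
noncomputable def sat (n : ℕ) : ℕ := sInf (satSet n)

/-- The semi-saturation number `s-sat(Q_n, Q_2)`. -/
noncomputable def ssat (n : ℕ) : ℕ := sInf (semiSatSet n)

end Pool.Agent.Helper75.SatQ
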