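import Pool.Agent.Helper75.SatQ.Defs

/-!
The lower bound for abstract direction sets `D x`.
-/

set_option autoImplicit false

namespace Pool.Agent.Helper75.SatQ

/-- Flip coordinate `i`. -/
def fl {n : ℕ} (x : Fin n → ZMod 2) (i : Fin n) : Fin n → ZMod 2 := x + Pi.single i 1

theorem fl_fl {n : ℕ} (x : Fin n → ZMod 2) (i : Fin n) : fl (fl x i) i = x := by
  unfold fl
  rw [add_assoc, ← Pi.single_add]
  have : (1 + 1 : ZMod 2) = 0 := by decide
  rw [this]
  simp

theorem fl_comm {n : ℕ} (x : Fin n → ZMod 2) (i j : Fin n) : fl (fl x i) j = fl (fl x j) i := by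
  unfold fl
  rw [add_assoc, add_assoc, add_comm (Pi.single i 1)]

/-- The flip as an equivalence. -/
def flEquiv {n : ℕ} (i : Fin n) : (Fin n → ZMod 2) ≃ (Fin n → ZMod 2) where
  toFun x := fl x i
  invFun x := fl x i
  left_inv x := fl_fl x i
  right_inv x := fl_fl x i

theorem sum_fl {n : ℕ} (F : (Fin n → ZMod 2) → Fin n → ℝ) :
    ∑ x, ∑ i, F (fl x i) i = ∑ x, ∑ i, F x i := by
  rw [Finset.sum_comm, Finset.sum_comm (s := Finset.univ (α := Fin n → ZMod 2))]
  exact Finset.sum_congr rfl fun i _ => Equiv.sum_comp (flEquiv i) fun x => F x i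

section

variable {n : ℕ} (D : (Fin n → ZMod 2) → Finset (Fin n)) (K : ℕ)

/-- Indicator of the directions. -/
noncomputable def dd (x : Fin n → ZMod 2) (i : Fin n) : ℝ := if i ∈ D x then 1 else 0

/-- Indicator of the vertices of high degree. -/
noncomputable def pp (x : Fin n → ZMod 2) : ℝ := if K < (D x).card then 1 else 0

/-- Number of low neighbours. -/
noncomputable def AA (x : Fin n → ZMod 2) : ℝ := ∑ j, dd D x j * (1 - pp D K (fl x j))

/-- Number of high neighbours. -/
noncomputable def BB (x : Fin n → ZMod 2) : ℝ := ∑ i, dd D x i * pp D K (fl x i)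

/-- Indicator of the directed hub-hub edges. -/
noncomputable def WW (x : Fin n → ZMod 2) (i : Fin n) : ℝ :=
  pp D K x * dd D x i * pp D K (fl x i)

theorem dd_nonneg (x : Fin n → ZMod 2) (i : Fin n) : 0 ≤ dd D x i := by
  unfold dd; split_ifs <;> norm_num

theorem dd_le_one (x : Fin n → ZMod 2) (i : Fin n) : dd D x i ≤ 1 := by
  unfold dd; split_ifs <;> norm_num

theorem pp_nonneg (x : Fin n → ZMod 2) : 0 ≤ pp D K x := by
  unfold pp; split_ifs <;> norm_num

theorem pp_le_one (x : Fin n → ZMod 2) : pp D K x ≤ 1 := by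
  unfold pp; split_ifs <;> norm_num

theorem sum_dd (x : Fin n → ZMod 2) : ∑ i, dd D x i = (D x).card := by
  unfold dd
  rw [Finset.sum_ite_mem, Finset.univ_inter, Finset.sum_const, nsmul_eq_mul, mul_one]

theorem AA_add_BB (x : Fin n → ZMod 2) : AA D K x + BB D K x = (D x).card := by
  rw [← sum_dd, AA, BB, ← Finset.sum_add_distrib]
  exact Finset.sum_congr rfl fun i _ => by ring

theorem AA_nonneg (x : Fin n → ZMod 2) : 0 ≤ AA D K x :=
  Finset.sum_nonneg fun j _ => mul_nonneg (dd_nonneg D x j) (sub_nonneg.2 (pp_le_one D K _))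

theorem BB_nonneg (x : Fin n → ZMod 2) : 0 ≤ BB D K x :=
  Finset.sum_nonneg fun j _ => mul_nonneg (dd_nonneg D x j) (pp_nonneg D K _)

theorem card_le_n (x : Fin n → ZMod 2) : ((D x).card : ℝ) ≤ n := by
  have := Finset.card_le_univ (D x)
  rw [Fintype.card_fin] at this
  exact_mod_cast this

theorem sum_WW (x : Fin n → ZMod 2) : ∑ i, WW D K x i = pp D K x * BB D K x := by
  unfold WW BB
  rw [Finset.mul_sum]
  exact Finset.sum_congr rfl fun i _ => by ring

variable (hsym : ∀ x i, i ∈ D x → i ∈ D (fl x i))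

include hsym in
theorem dd_fl (x : Fin n → ZMod 2) (i : Fin n) : dd D (fl x i) i = dd D x i := by
  unfold dd
  have : i ∈ D (fl x i) ↔ i ∈ D x := by
    constructor
    · intro h
      have := hsym _ _ h
      rwa [fl_fl] at this
    · exact hsym x i
  simp only [this]

include hsym in
theorem WW_fl (x : Fin n → ZMod 2) (i : Fin n) : WW D K (fl x i) i = WW D K x i := by
  unfold WW
  rw [dd_fl D hsym, fl_fl]
  ring

theorem WW_nonneg (x : Fin n → ZMod 2) (i : Fin n) : 0 ≤ WW D K x i :=
  mul_nonneg (mul_nonneg (pp_nonneg D K x) (dd_nonneg D x i)) (pp_nonneg D K _)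

include hsym in
/-- The cost. -/
theorem cost : ∑ x, pp D K x * (2 * AA D K x + BB D K x) ≤ ∑ x, ((D x).card : ℝ) := by
  have h1 : ∑ x, (1 - pp D K x) * BB D K x = ∑ x, pp D K x * AA D K x := by
    have h2 : ∀ x, (1 - pp D K x) * BB D K x =
        ∑ i, (fun y i => (1 - pp D K (fl y i)) * dd D y i * pp D K y) (fl x i) i := by
      intro x
      unfold BB
      rw [Finset.mul_sum]
      refine Finset.sum_congr rfl fun i _ => ?_
      simp only
      rw [fl_fl, dd_fl D hsym]
      ring
    rw [Finset.sum_congr rfl fun x _ => h2 x,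
      sum_fl (fun y i => (1 - pp D K (fl y i)) * dd D y i * pp D K y)]
    refine Finset.sum_congr rfl fun x _ => ?_
    unfold AA
    rw [Finset.mul_sum]
    exact Finset.sum_congr rfl fun i _ => by ring
  have h3 : ∀ x, pp D K x * (2 * AA D K x + BB D K x) ≤
      (D x).card + (pp D K x * AA D K x - (1 - pp D K x) * BB D K x) := by
    intro x
    rw [← AA_add_BB D K x]
    have := AA_nonneg D K x
    have h4 := pp_le_one D K x
    nlinarith
  calc _ ≤ ∑ x, (((D x).card : ℝ) + (pp D K x * AA D K x - (1 - pp D K x) * BB D K x)) :=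
        Finset.sum_le_sum fun x _ => h3 x
    _ = _ := by
      rw [Finset.sum_add_distrib, Finset.sum_sub_distrib, h1]
      ring

theorem high_card (x : Fin n → ZMod 2) : pp D K x * K ≤ (D x).card := by
  unfold pp
  split_ifs with h
  · rw [one_mul]
    exact_mod_cast h.le
  · rw [zero_mul]
    positivity

theorem low_card (x : Fin n → ZMod 2) : (1 - pp D K x) * (D x).card ≤ K := by
  unfold pp
  split_ifs with h
  · simp
  · rw [sub_zero, one_mul]
    exact_mod_cast not_lt.1 h

/-- Number of good triples. -/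
noncomputable def Ng : ℝ :=
  ∑ x, ∑ i, ∑ j, WW D K x i * (dd D x j * (1 - pp D K (fl x j))) *
    (dd D (fl x i) j * (1 - pp D K (fl (fl x i) j)))

theorem Ng_le : Ng D K ≤ ∑ x, ∑ i, WW D K x i * min (AA D K x) (AA D K (fl x i)) := by
  unfold Ng
  refine Finset.sum_le_sum fun x _ => Finset.sum_le_sum fun i _ => ?_
  have h1 : ∑ j, WW D K x i * (dd D x j * (1 - pp D K (fl x j))) *
      (dd D (fl x i) j * (1 - pp D K (fl (fl x i) j))) =
      WW D K x i * ∑ j, (dd D x j * (1 - pp D K (fl x j))) *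
      (dd D (fl x i) j * (1 - pp D K (fl (fl x i) j))) := by
    rw [Finset.mul_sum]
    exact Finset.sum_congr rfl fun j _ => by ring
  rw [h1]
  refine mul_le_mul_of_nonneg_left (le_min ?_ ?_) (WW_nonneg D K x i)
  · unfold AA
    refine Finset.sum_le_sum fun j _ => ?_
    refine mul_le_of_le_one_right ?_ ?_
    · exact mul_nonneg (dd_nonneg D x j) (sub_nonneg.2 (pp_le_one D K _))
    · have h2 := dd_le_one D (fl x i) j
      have h3 := dd_nonneg D (fl x i) j
      have h4 := pp_nonneg D K (fl (fl x i) j)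
      have h5 := pp_le_one D K (fl (fl x i) j)
      nlinarith
  · unfold AA
    refine Finset.sum_le_sum fun j _ => ?_
    refine mul_le_of_le_one_left ?_ ?_
    · exact mul_nonneg (dd_nonneg D _ j) (sub_nonneg.2 (pp_le_one D K _))
    · have h2 := dd_le_one D x j
      have h3 := dd_nonneg D x j
      have h4 := pp_nonneg D K (fl x j)
      have h5 := pp_le_one D K (fl x j)
      nlinarith


variable (hsat : ∀ x i, i ∉ D x → ∃ j, j ∈ D x ∧ i ∈ D (fl x j) ∧ j ∈ D (fl x i))

/-- The bad triples. -/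
noncomputable def bad (x : Fin n → ZMod 2) (i j : Fin n) : ℝ :=
  (1 - pp D K x) * dd D x j * (1 - pp D K (fl x j)) * dd D (fl x j) i

/-- The good triples. -/
noncomputable def good (x : Fin n → ZMod 2) (i j : Fin n) : ℝ :=
  WW D K (fl x j) i * (dd D (fl x j) j * (1 - pp D K (fl (fl x j) j))) *
    (dd D (fl (fl x j) i) j * (1 - pp D K (fl (fl (fl x j) i) j)))

theorem bad_nonneg (x : Fin n → ZMod 2) (i j : Fin n) : 0 ≤ bad D K x i j :=
  mul_nonneg (mul_nonneg (mul_nonneg (sub_nonneg.2 (pp_le_one D K _)) (dd_nonneg D x j))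
    (sub_nonneg.2 (pp_le_one D K _))) (dd_nonneg D _ i)

theorem good_nonneg (x : Fin n → ZMod 2) (i j : Fin n) : 0 ≤ good D K x i j :=
  mul_nonneg (mul_nonneg (WW_nonneg D K _ _) (mul_nonneg (dd_nonneg D _ j)
    (sub_nonneg.2 (pp_le_one D K _)))) (mul_nonneg (dd_nonneg D _ j)
    (sub_nonneg.2 (pp_le_one D K _)))

theorem sum_bad_le : ∑ x, ∑ i, ∑ j, bad D K x i j ≤ (K : ℝ) ^ 2 * 2 ^ n := by
  have h1 : ∀ x, ∑ i, ∑ j, bad D K x i j ≤ (K : ℝ) ^ 2 := by
    intro x
    rw [Finset.sum_comm]
    have h2 : ∀ j, ∑ i, bad D K x i j ≤ (1 - pp D K x) * dd D x j * K := by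
      intro j
      have h3 : ∑ i, bad D K x i j =
          (1 - pp D K x) * dd D x j * ((1 - pp D K (fl x j)) * (D (fl x j)).card) := by
        unfold bad
        rw [← Finset.mul_sum, sum_dd]
        ring
      rw [h3]
      exact mul_le_mul_of_nonneg_left (low_card D K _)
        (mul_nonneg (sub_nonneg.2 (pp_le_one D K _)) (dd_nonneg D x j))
    calc ∑ j, ∑ i, bad D K x i j ≤ ∑ j, (1 - pp D K x) * dd D x j * K :=
          Finset.sum_le_sum fun j _ => h2 j
      _ = ((1 - pp D K x) * (D x).card) * K := by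
          rw [← sum_dd, Finset.mul_sum, Finset.sum_mul]
      _ ≤ K * K := mul_le_mul_of_nonneg_right (low_card D K x) (by positivity)
      _ = (K : ℝ) ^ 2 := by ring
  calc _ ≤ ∑ _x : Fin n → ZMod 2, (K : ℝ) ^ 2 := Finset.sum_le_sum fun x _ => h1 x
    _ = _ := by
      rw [Finset.sum_const, Finset.card_univ, Fintype.card_fun, ZMod.card, Fintype.card_fin,
        nsmul_eq_mul]
      push_cast
      ring

theorem sum_good : ∑ x, ∑ i, ∑ j, good D K x i j = Ng D K := by
  unfold Ng
  have h1 : ∀ F : (Fin n → ZMod 2) → Fin n → Fin n → ℝ,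
      ∑ x, ∑ i, ∑ j, F (fl x j) i j = ∑ x, ∑ i, ∑ j, F x i j := by
    intro F
    have h2 : ∀ x, ∑ i, ∑ j, F (fl x j) i j = ∑ j, (fun y j => ∑ i, F y i j) (fl x j) j := by
      intro x
      rw [Finset.sum_comm]
    rw [Finset.sum_congr rfl fun x _ => h2 x, sum_fl (fun y j => ∑ i, F y i j)]
    exact Finset.sum_congr rfl fun x _ => Finset.sum_comm
  exact h1 (fun x i j => WW D K x i * (dd D x j * (1 - pp D K (fl x j))) *
    (dd D (fl x i) j * (1 - pp D K (fl (fl x i) j))))

include hsym hsat in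
theorem coverage_point (x : Fin n → ZMod 2) (i : Fin n) :
    1 - pp D K x - pp D K (fl x i) - dd D x i ≤
      ∑ j, good D K x i j + ∑ j, bad D K x i j + ∑ j, bad D K (fl x i) i j := by
  have hg0 : 0 ≤ ∑ j, good D K x i j := Finset.sum_nonneg fun j _ => good_nonneg D K x i j
  have hb0 : 0 ≤ ∑ j, bad D K x i j := Finset.sum_nonneg fun j _ => bad_nonneg D K x i j
  have hb1 : 0 ≤ ∑ j, bad D K (fl x i) i j :=
    Finset.sum_nonneg fun j _ => bad_nonneg D K (fl x i) i j
  by_cases hx : K < (D x).card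
  · have h1 : pp D K x = 1 := if_pos hx
    have h2 := pp_nonneg D K (fl x i)
    have h3 := dd_nonneg D x i
    linarith
  by_cases hxi : K < (D (fl x i)).card
  · have h1 : pp D K (fl x i) = 1 := if_pos hxi
    have h2 := pp_nonneg D K x
    have h3 := dd_nonneg D x i
    linarith
  by_cases hd : i ∈ D x
  · have h1 : dd D x i = 1 := if_pos hd
    have h2 := pp_nonneg D K x
    have h3 := pp_nonneg D K (fl x i)
    linarith
  have p1 : pp D K x = 0 := if_neg hx
  have p2 : pp D K (fl x i) = 0 := if_neg hxi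
  have p3 : dd D x i = 0 := if_neg hd
  obtain ⟨j, hj1, hj2, hj3⟩ := hsat x i hd
  have q1 : dd D x j = 1 := if_pos hj1
  have q2 : dd D (fl x j) i = 1 := if_pos hj2
  have q3 : dd D (fl x i) j = 1 := if_pos hj3
  have q1' : dd D (fl x j) j = 1 := by rw [dd_fl D hsym]; exact q1
  by_cases hh : K < (D (fl x j)).card
  · by_cases hhi : K < (D (fl (fl x j) i)).card
    · -- good
      have r1 : pp D K (fl x j) = 1 := if_pos hh
      have r2 : pp D K (fl (fl x j) i) = 1 := if_pos hhi
      have e1 : good D K x i j = 1 := by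
        unfold good WW
        rw [fl_fl, fl_comm (fl x j) i j, fl_fl, r1, r2, q2, q1', p1, p2]
        have : dd D (fl (fl x j) i) j = 1 := by
          rw [fl_comm x j i, dd_fl D hsym]
          exact q3
        rw [this]
        ring
      have := Finset.single_le_sum (f := fun j => good D K x i j)
        (fun j _ => good_nonneg D K x i j) (Finset.mem_univ j)
      simp only [e1] at this
      linarith
    · -- bad, the vertex above is low
      have r2 : pp D K (fl (fl x i) j) = 0 := by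
        rw [fl_comm]
        exact if_neg hhi
      have r3 : dd D (fl (fl x i) j) i = 1 := by
        rw [fl_comm, dd_fl D hsym]
        exact q2
      have e1 : bad D K (fl x i) i j = 1 := by
        unfold bad
        rw [p2, q3, r2, r3]
        ring
      have := Finset.single_le_sum (f := fun j => bad D K (fl x i) i j)
        (fun j _ => bad_nonneg D K (fl x i) i j) (Finset.mem_univ j)
      simp only [e1] at this
      linarith
  · have r1 : pp D K (fl x j) = 0 := if_neg hh
    have e1 : bad D K x i j = 1 := by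
      unfold bad
      rw [p1, q1, r1, q2]
      ring
    have := Finset.single_le_sum (f := fun j => bad D K x i j)
      (fun j _ => bad_nonneg D K x i j) (Finset.mem_univ j)
    simp only [e1] at this
    linarith

theorem sum_one : ∑ _x : Fin n → ZMod 2, (1 : ℝ) = 2 ^ n := by
  rw [Finset.sum_const, Finset.card_univ, Fintype.card_fun, ZMod.card, Fintype.card_fin,
    nsmul_eq_mul, mul_one]
  push_cast
  ring

include hsym hsat in
theorem coverage :
    n * 2 ^ n - 2 * n * ∑ x, pp D K x - ∑ x, ((D x).card : ℝ) - 2 * (K : ℝ) ^ 2 * 2 ^ n ≤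
      Ng D K := by
  have h1 : ∑ x, ∑ i, (1 - pp D K x - pp D K (fl x i) - dd D x i) ≤
      ∑ x, ∑ i, (∑ j, good D K x i j + ∑ j, bad D K x i j + ∑ j, bad D K (fl x i) i j) :=
    Finset.sum_le_sum fun x _ => Finset.sum_le_sum fun i _ =>
      coverage_point D K hsym hsat x i
  have h2 : ∑ x, ∑ i : Fin n, (1 - pp D K x - pp D K (fl x i) - dd D x i) =
      n * 2 ^ n - 2 * n * ∑ x, pp D K x - ∑ x, ((D x).card : ℝ) := by
    have e1 : ∑ x, ∑ i : Fin n, pp D K (fl x i) = ∑ x, ∑ _i : Fin n, pp D K x :=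
      sum_fl (fun y _ => pp D K y)
    simp only [Finset.sum_sub_distrib]
    rw [e1]
    simp only [sum_dd, Finset.sum_const, Finset.card_univ, Fintype.card_fin, nsmul_eq_mul]
    have hc : (Fintype.card (Fin n → ZMod 2) : ℝ) = 2 ^ n := by
      rw [Fintype.card_fun, ZMod.card, Fintype.card_fin]
      push_cast
      ring
    rw [← Finset.mul_sum, hc]
    ring
  have h3 : ∑ x, ∑ i, (∑ j, good D K x i j + ∑ j, bad D K x i j + ∑ j, bad D K (fl x i) i j) =
      Ng D K + 2 * ∑ x, ∑ i, ∑ j, bad D K x i j := by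
    have e1 : ∑ x, ∑ i : Fin n, ∑ j, bad D K (fl x i) i j = ∑ x, ∑ i, ∑ j, bad D K x i j :=
      sum_fl (fun y i => ∑ j, bad D K y i j)
    simp only [Finset.sum_add_distrib]
    rw [e1, sum_good]
    ring
  have h4 := sum_bad_le D K
  rw [h2, h3] at h1
  linarith

variable (hfree : ∀ x i j, i ≠ j → i ∈ D x → j ∈ D x → j ∈ D (fl x i) → i ∉ D (fl x j))

/-- The number of ordered pairs is at most half of the square, up to the diagonal. -/
theorem pairs_le (S : Finset (Fin n)) (R : Fin n → Fin n → Prop) [∀ i j, Decidable (R i j)]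
    (hR : ∀ i ∈ S, ∀ j ∈ S, i ≠ j → R i j → ¬ R j i) :
    ∑ i ∈ S, ((S.filter (R i)).card : ℝ) ≤ S.card * (S.card + 1) / 2 := by
  have h1 : ∀ i j : Fin n, i ∈ S → j ∈ S →
      ((if R i j then (1 : ℝ) else 0) + if R j i then (1 : ℝ) else 0) ≤
        1 + if i = j then 1 else 0 := by
    intro i j hi hj
    by_cases hij : i = j
    · subst hij
      rw [if_pos rfl]
      split_ifs <;> norm_num
    · rw [if_neg hij]
      have := hR i hi j hj hij
      by_cases h : R i j
      · rw [if_pos h, if_neg (this h)]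
      · rw [if_neg h]
        split_ifs <;> norm_num
  have h2 : ∑ i ∈ S, ((S.filter (R i)).card : ℝ) = ∑ i ∈ S, ∑ j ∈ S, if R i j then (1 : ℝ) else 0 := by
    refine Finset.sum_congr rfl fun i _ => ?_
    rw [Finset.sum_ite, Finset.sum_const_zero, add_zero, Finset.sum_const, nsmul_eq_mul, mul_one]
  have h3 : ∑ i ∈ S, ∑ j ∈ S, (if R i j then (1 : ℝ) else 0) =
      ∑ i ∈ S, ∑ j ∈ S, (if R j i then (1 : ℝ) else 0) := Finset.sum_comm
  have h4 : ∑ i ∈ S, ∑ j ∈ S, ((if R i j then (1 : ℝ) else 0) + if R j i then (1 : ℝ) else 0) ≤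
      ∑ i ∈ S, ∑ j ∈ S, (1 + if i = j then (1 : ℝ) else 0) :=
    Finset.sum_le_sum fun i hi => Finset.sum_le_sum fun j hj => h1 i j hi hj
  have h5 : ∑ i ∈ S, ∑ j ∈ S, (1 + if i = j then (1 : ℝ) else 0) = S.card * (S.card + 1) := by
    simp only [Finset.sum_add_distrib, Finset.sum_const, nsmul_eq_mul, mul_one]
    have : ∀ i ∈ S, (∑ j ∈ S, if i = j then (1 : ℝ) else 0) = 1 := by
      intro i hi
      rw [Finset.sum_ite_eq, if_pos hi]
    rw [Finset.sum_congr rfl this, Finset.sum_const, nsmul_eq_mul]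
    ring
  simp only [Finset.sum_add_distrib] at h4 h5
  rw [← h3] at h4
  rw [h2]
  linarith

include hfree in
/-- The local inequality at a hub. -/
theorem hub_local (x : Fin n → ZMod 2) (hx : K < (D x).card) :
    ∑ i, WW D K x i * (AA D K (fl x i) + BB D K (fl x i) + BB D K x / 2 - n) ≤
      BB D K x / 2 := by
  classical
  -- the set of hub directions
  let S : Finset (Fin n) := (D x).filter fun i => K < (D (fl x i)).card
  have hp : pp D K x = 1 := if_pos hx
  have hW : ∀ i, WW D K x i = if i ∈ S then 1 else 0 := by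
    intro i
    unfold WW dd pp
    rw [if_pos hx]
    by_cases h1 : i ∈ D x
    · by_cases h2 : K < (D (fl x i)).card
      · have : i ∈ S := Finset.mem_filter.2 ⟨h1, h2⟩
        rw [if_pos h1, if_pos h2, if_pos this]
        ring
      · have : i ∉ S := fun h => h2 (Finset.mem_filter.1 h).2
        rw [if_neg h2, if_neg this]
        ring
    · have : i ∉ S := fun h => h1 (Finset.mem_filter.1 h).1
      rw [if_neg h1, if_neg this]
      ring
  have hB : BB D K x = S.card := by
    have h1 := sum_WW D K x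
    rw [hp, one_mul] at h1
    rw [← h1]
    simp only [hW]
    rw [Finset.sum_ite_mem, Finset.univ_inter, Finset.sum_const, nsmul_eq_mul, mul_one]
  have hpairs := pairs_le S (fun i j => j ∈ D (fl x i)) (by
    intro i hi j hj hij h1 h2
    exact hfree x i j hij (Finset.mem_filter.1 hi).1 (Finset.mem_filter.1 hj).1 h1 h2)
  have hlow : ∀ i ∈ S, AA D K (fl x i) + BB D K (fl x i) + S.card - n ≤
      ((S.filter fun j => j ∈ D (fl x i)).card : ℝ) := by
    intro i _
    rw [AA_add_BB]
    have h1 : (S.filter fun j => j ∈ D (fl x i)) = S ∩ D (fl x i) := by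
      ext j
      simp
    rw [h1]
    have h2 := Finset.card_union_add_card_inter S (D (fl x i))
    have h3 := Finset.card_le_univ (S ∪ D (fl x i))
    rw [Fintype.card_fin] at h3
    have h4 : S.card + (D (fl x i)).card ≤ n + (S ∩ D (fl x i)).card := by omega
    have h5 : (S.card : ℝ) + (D (fl x i)).card ≤ n + (S ∩ D (fl x i)).card := by exact_mod_cast h4
    linarith
  have hsum : ∑ i ∈ S, (AA D K (fl x i) + BB D K (fl x i) + S.card - n) ≤
      S.card * (S.card + 1) / 2 := (Finset.sum_le_sum hlow).trans hpairs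
  have hconv : ∑ i, WW D K x i * (AA D K (fl x i) + BB D K (fl x i) + BB D K x / 2 - n) =
      ∑ i ∈ S, (AA D K (fl x i) + BB D K (fl x i) + BB D K x / 2 - n) := by
    simp only [hW, ite_mul, one_mul, zero_mul]
    rw [Finset.sum_ite_mem, Finset.univ_inter]
  rw [hconv, hB]
  have h6 : ∑ i ∈ S, (AA D K (fl x i) + BB D K (fl x i) + (S.card : ℝ) / 2 - n) =
      ∑ i ∈ S, (AA D K (fl x i) + BB D K (fl x i) + S.card - n) - S.card * (S.card / 2) := by
    rw [← nsmul_eq_mul, ← Finset.sum_const, ← Finset.sum_sub_distrib]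
    exact Finset.sum_congr rfl fun i _ => by ring
  rw [h6]
  linarith


theorem algebra_le (n A B A' B' : ℝ) (hA : 0 ≤ A) (hB : 0 ≤ B) (h' : A' + B' ≤ n)
    (hB' : 0 ≤ B') (hAA : A ≤ A') :
    (182 / 25) * n * A ≤
      n ^ 2 + (4 / 3) * n * (A + A') + (16 / 3) * A * A' - (8 / 3) * (A - A') * (B - B') := by
  have hA'n : A' ≤ n := by linarith
  have e1 : (A - A') * (B - B') ≤ (A' - A) * (n - A') := by nlinarith
  have h1 : 0 ≤ n ^ 2 - 4 / 3 * n * A' + 8 / 3 * A' ^ 2 := by
    nlinarith [sq_nonneg (n - 2 / 3 * A'), sq_nonneg A']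
  have h2 : 0 ≤ n ^ 2 - 346 / 75 * n * A' + 16 / 3 * A' ^ 2 := by
    nlinarith [sq_nonneg (n - 173 / 75 * A'), sq_nonneg A']
  have key : 0 ≤ n ^ 2 + (4 / 3) * n * (A + A') + (16 / 3) * A * A' -
      (8 / 3) * ((A' - A) * (n - A')) - (182 / 25) * n * A := by
    rcases (le_trans hA hAA).eq_or_lt with h0 | h0
    · have : A = 0 := by linarith
      rw [this, ← h0]
      nlinarith [sq_nonneg n]
    · by_contra hcon
      push Not at hcon
      have h3 := mul_nonneg (sub_nonneg.2 hAA) h1
      have h4 := mul_nonneg hA h2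
      have h5 := mul_neg_of_neg_of_pos hcon h0
      nlinarith
  nlinarith

theorem algebra (n A B A' B' : ℝ) (hA : 0 ≤ A) (hB : 0 ≤ B) (hA' : 0 ≤ A') (hB' : 0 ≤ B')
    (h : A + B ≤ n) (h' : A' + B' ≤ n) :
    (182 / 25) * n * min A A' ≤
      n ^ 2 + (4 / 3) * n * (A + A') + (16 / 3) * A * A' - (8 / 3) * (A - A') * (B - B') := by
  rcases le_total A A' with hAA | hAA
  · rw [min_eq_left hAA]
    exact algebra_le n A B A' B' hA hB h' hB' hAA
  · rw [min_eq_right hAA]
    have := algebra_le n A' B' A B hA' hB' h hB hAA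
    linarith

include hsym hfree in
theorem main_ineq :
    (182 / 25) * n * Ng D K ≤ ((n : ℝ) ^ 2 + (4 / 3) * n) * ∑ x, ((D x).card : ℝ) := by
  -- the summand
  let f : (Fin n → ZMod 2) → Fin n → ℝ := fun x i =>
    (n : ℝ) ^ 2 + 8 * AA D K x * (n - BB D K x) +
      (16 / 3) * AA D K x * (AA D K (fl x i) + BB D K (fl x i) + BB D K x / 2 - n)
  have hcost := cost D K hsym
  -- first part
  have h1 : ∑ x, ∑ i, WW D K x i * ((n : ℝ) ^ 2 + 8 * AA D K x * (n - BB D K x)) ≤
      (n : ℝ) ^ 2 * ∑ x, ((D x).card : ℝ) := by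
    have e1 : ∀ x, ∑ i, WW D K x i * ((n : ℝ) ^ 2 + 8 * AA D K x * (n - BB D K x)) ≤
        (n : ℝ) ^ 2 * (pp D K x * (2 * AA D K x + BB D K x)) := by
      intro x
      rw [← Finset.sum_mul, sum_WW]
      have hp := pp_nonneg D K x
      have hA := AA_nonneg D K x
      have e2 : BB D K x * ((n : ℝ) ^ 2 + 8 * AA D K x * (n - BB D K x)) ≤
          (n : ℝ) ^ 2 * (2 * AA D K x + BB D K x) := by
        have := mul_nonneg hA (sq_nonneg ((n : ℝ) - 2 * BB D K x))
        nlinarith
      calc _ = pp D K x * (BB D K x * ((n : ℝ) ^ 2 + 8 * AA D K x * (n - BB D K x))) := by ring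
        _ ≤ pp D K x * ((n : ℝ) ^ 2 * (2 * AA D K x + BB D K x)) :=
          mul_le_mul_of_nonneg_left e2 hp
        _ = _ := by ring
    calc _ ≤ ∑ x, (n : ℝ) ^ 2 * (pp D K x * (2 * AA D K x + BB D K x)) :=
          Finset.sum_le_sum fun x _ => e1 x
      _ = (n : ℝ) ^ 2 * ∑ x, (pp D K x * (2 * AA D K x + BB D K x)) := by rw [Finset.mul_sum]
      _ ≤ _ := mul_le_mul_of_nonneg_left hcost (by positivity)
  -- second part
  have h2 : ∑ x, ∑ i, WW D K x i * ((16 / 3) * AA D K x *
      (AA D K (fl x i) + BB D K (fl x i) + BB D K x / 2 - n)) ≤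
      (4 / 3) * n * ∑ x, ((D x).card : ℝ) := by
    have e1 : ∀ x, ∑ i, WW D K x i * ((16 / 3) * AA D K x *
        (AA D K (fl x i) + BB D K (fl x i) + BB D K x / 2 - n)) ≤
        (4 / 3) * n * (pp D K x * (2 * AA D K x + BB D K x)) := by
      intro x
      have e2 : ∑ i, WW D K x i * ((16 / 3) * AA D K x *
          (AA D K (fl x i) + BB D K (fl x i) + BB D K x / 2 - n)) =
          (16 / 3) * AA D K x * ∑ i, WW D K x i *
            (AA D K (fl x i) + BB D K (fl x i) + BB D K x / 2 - n) := by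
        rw [Finset.mul_sum]
        exact Finset.sum_congr rfl fun i _ => by ring
      rw [e2]
      have hA := AA_nonneg D K x
      have hB := BB_nonneg D K x
      have hAB := AA_add_BB D K x
      have hn := card_le_n D x
      by_cases hx : K < (D x).card
      · have hp : pp D K x = 1 := if_pos hx
        have h3 := hub_local D K hfree x hx
        have h4 := mul_le_mul_of_nonneg_left h3 (show 0 ≤ (16 / 3) * AA D K x by positivity)
        rw [hp]
        have h5 : AA D K x * BB D K x ≤ AA D K x * n := mul_le_mul_of_nonneg_left (by linarith) hA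
        have h6 : 0 ≤ (n : ℝ) * BB D K x := by positivity
        nlinarith
      · have hp : pp D K x = 0 := if_neg hx
        have h3 : ∀ i, WW D K x i = 0 := by
          intro i
          unfold WW
          rw [hp]
          ring
        simp only [h3, zero_mul, Finset.sum_const_zero, mul_zero, hp]
        exact le_refl _
    calc _ ≤ ∑ x, (4 / 3) * n * (pp D K x * (2 * AA D K x + BB D K x)) :=
          Finset.sum_le_sum fun x _ => e1 x
      _ = (4 / 3) * n * ∑ x, (pp D K x * (2 * AA D K x + BB D K x)) := by rw [Finset.mul_sum]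
      _ ≤ _ := mul_le_mul_of_nonneg_left hcost (by positivity)
  have h3 : ∑ x, ∑ i, WW D K x i * f x i ≤
      ((n : ℝ) ^ 2 + (4 / 3) * n) * ∑ x, ((D x).card : ℝ) := by
    have e1 : ∑ x, ∑ i, WW D K x i * f x i =
        ∑ x, ∑ i, WW D K x i * ((n : ℝ) ^ 2 + 8 * AA D K x * (n - BB D K x)) +
        ∑ x, ∑ i, WW D K x i * ((16 / 3) * AA D K x *
          (AA D K (fl x i) + BB D K (fl x i) + BB D K x / 2 - n)) := by
      rw [← Finset.sum_add_distrib]
      refine Finset.sum_congr rfl fun x _ => ?_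
      rw [← Finset.sum_add_distrib]
      exact Finset.sum_congr rfl fun i _ => by simp only [f]; ring
    rw [e1]
    linarith
  -- symmetrization
  have h4 : ∑ x, ∑ i, WW D K x i * f (fl x i) i = ∑ x, ∑ i, WW D K x i * f x i := by
    have e1 := sum_fl (fun y i => WW D K y i * f y i)
    rw [← e1]
    refine Finset.sum_congr rfl fun x _ => Finset.sum_congr rfl fun i _ => ?_
    rw [WW_fl D K hsym]
  have h5 : ∑ x, ∑ i, WW D K x i * ((182 / 25) * n * min (AA D K x) (AA D K (fl x i))) ≤
      ∑ x, ∑ i, WW D K x i * ((f x i + f (fl x i) i) / 2) := by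
    refine Finset.sum_le_sum fun x _ => Finset.sum_le_sum fun i _ => ?_
    refine mul_le_mul_of_nonneg_left ?_ (WW_nonneg D K x i)
    have hx := AA_add_BB D K x
    have hx' := AA_add_BB D K (fl x i)
    have hn := card_le_n D x
    have hn' := card_le_n D (fl x i)
    have := algebra n (AA D K x) (BB D K x) (AA D K (fl x i)) (BB D K (fl x i))
      (AA_nonneg D K x) (BB_nonneg D K x) (AA_nonneg D K _) (BB_nonneg D K _)
      (by linarith) (by linarith)
    refine this.trans (le_of_eq ?_)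
    simp only [f]
    rw [fl_fl]
    ring
  have h6 : ∑ x, ∑ i, WW D K x i * ((f x i + f (fl x i) i) / 2) =
      ∑ x, ∑ i, WW D K x i * f x i := by
    have e1 : ∑ x, ∑ i, WW D K x i * ((f x i + f (fl x i) i) / 2) =
        (∑ x, ∑ i, WW D K x i * f x i + ∑ x, ∑ i, WW D K x i * f (fl x i) i) / 2 := by
      rw [← Finset.sum_add_distrib, Finset.sum_div]
      refine Finset.sum_congr rfl fun x _ => ?_
      rw [← Finset.sum_add_distrib, Finset.sum_div]
      exact Finset.sum_congr rfl fun i _ => by ring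
    rw [e1, h4]
    ring
  have h7 : (182 / 25) * n * Ng D K ≤
      ∑ x, ∑ i, WW D K x i * ((182 / 25) * n * min (AA D K x) (AA D K (fl x i))) := by
    have e1 := mul_le_mul_of_nonneg_left (Ng_le D K) (show (0 : ℝ) ≤ (182 / 25) * n by positivity)
    refine e1.trans (le_of_eq ?_)
    rw [Finset.mul_sum]
    refine Finset.sum_congr rfl fun x _ => ?_
    rw [Finset.mul_sum]
    exact Finset.sum_congr rfl fun i _ => by ring
  linarith

include hsym hfree hsat in
/-- The lower bound in explicit form. -/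
theorem lower_bound :
    (182 / 25) * n * (n * 2 ^ n - 2 * n * ∑ x, pp D K x - ∑ x, ((D x).card : ℝ) -
      2 * (K : ℝ) ^ 2 * 2 ^ n) ≤ ((n : ℝ) ^ 2 + (4 / 3) * n) * ∑ x, ((D x).card : ℝ) :=
  (mul_le_mul_of_nonneg_left (coverage D K hsym hsat) (by positivity)).trans
    (main_ineq D K hsym hfree)

end

theorem lower_final : ∃ n₀ : ℕ, ∀ n : ℕ, n₀ ≤ n → ∀ D : (Fin n → ZMod 2) → Finset (Fin n),
    (∀ x i, i ∈ D x → i ∈ D (fl x i)) →
    (∀ x i, i ∉ D x → ∃ j, j ∈ D x ∧ i ∈ D (fl x j) ∧ j ∈ D (fl x i)) →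
    (∀ x i j, i ≠ j → i ∈ D x → j ∈ D x → j ∈ D (fl x i) → i ∉ D (fl x j)) →
    (36 / 5 : ℝ) * 2 ^ n ≤ ∑ x, ((D x).card : ℝ) := by
  refine ⟨30000000000, ?_⟩
  intro n hn D hsym hsat hfree
  have hn' : (30000000000 : ℝ) ≤ n := by exact_mod_cast hn
  by_contra hcon
  push Not at hcon
  have h1 := lower_bound D 10000 hsym hsat hfree
  have hP : (∑ x, pp D 10000 x) * 10000 ≤ ∑ x, ((D x).card : ℝ) := by
    rw [Finset.sum_mul]
    exact Finset.sum_le_sum fun x _ => high_card D 10000 x
  generalize (∑ x, pp D 10000 x) = P at h1 hP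
  generalize (∑ x, ((D x).card : ℝ)) = S at h1 hP hcon
  have hT : (0 : ℝ) < 2 ^ n := by positivity
  generalize ((2 : ℝ) ^ n) = T at h1 hcon hT
  have hn0 : (0 : ℝ) < n := by linarith
  push_cast at h1
  have h2 : (182 / 25) * (n * T - 2 * n * P - S - 2 * 10000 ^ 2 * T) ≤ ((n : ℝ) + 4 / 3) * S := by
    have h3 : (n : ℝ) * ((182 / 25) * (n * T - 2 * n * P - S - 2 * 10000 ^ 2 * T)) ≤
        n * (((n : ℝ) + 4 / 3) * S) := by
      nlinarith
    exact le_of_mul_le_mul_left h3 hn0
  have hP2 : (n : ℝ) * P ≤ n * (S / 10000) := mul_le_mul_of_nonneg_left (by linarith) hn0.le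
  have hS : (n : ℝ) * S ≤ n * ((36 / 5) * T) := mul_le_mul_of_nonneg_left hcon.le hn0.le
  have hTn : (30000000000 : ℝ) * T ≤ n * T := mul_le_mul_of_nonneg_right hn' hT.le
  nlinarith

end Pool.Agent.Helper75.SatQ
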