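import Pool.Agent.Helper75.SatQ.Basic

/-!
Saturated graphs: the direction sets satisfy the hypotheses of the lower bound.
-/

set_option autoImplicit false

namespace Pool.Agent.Helper75.SatQ

variable {n : ℕ}

theorem sup_le_Q {G : SimpleGraph (Fin n → ZMod 2)} (hG : G ≤ Q n) {x y : Fin n → ZMod 2}
    (h : (Q n).Adj x y) : G ⊔ SimpleGraph.edge x y ≤ Q n := by
  rw [sup_le_iff]
  refine ⟨hG, ?_⟩
  intro a b hab
  rw [SimpleGraph.edge_adj] at hab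
  rcases hab with ⟨⟨rfl, rfl⟩ | ⟨rfl, rfl⟩, -⟩
  · exact h
  · exact h.symm

theorem Face.swap {G : SimpleGraph (Fin n → ZMod 2)} {z : Fin n → ZMod 2} {k l : Fin n}
    (h : Face G z k l) : Face G z l k :=
  ⟨h.1.symm, h.2.2.1, h.2.1, h.2.2.2.2, h.2.2.2.1⟩

theorem Face.flip {G : SimpleGraph (Fin n → ZMod 2)} {z : Fin n → ZMod 2} {k l : Fin n}
    (h : Face G z k l) : Face G (fl z k) k l := by
  obtain ⟨hkl, h1, h2, h3, h4⟩ := h
  refine ⟨hkl, ?_, h3, ?_, ?_⟩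
  · rw [fl_fl]; exact h1.symm
  · rw [fl_fl]; exact h2
  · rw [fl_comm z k l, fl_fl]; exact h4.symm

theorem face_new {G G' : SimpleGraph (Fin n → ZMod 2)} {z : Fin n → ZMod 2} {k l : Fin n}
    (h : Face G' z k l) (hG : ∀ z k l, ¬ Face G z k l) :
    ∃ z k l, Face G' z k l ∧ ¬ G.Adj z (fl z k) := by
  by_cases h1 : G.Adj z (fl z k)
  · by_cases h2 : G.Adj z (fl z l)
    · by_cases h3 : G.Adj (fl z k) (fl (fl z k) l)
      · by_cases h4 : G.Adj (fl z l) (fl (fl z l) k)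
        · exact absurd ⟨h.1, h1, h2, h3, h4⟩ (hG z k l)
        · exact ⟨fl z l, k, l, h.swap.flip.swap, h4⟩
      · exact ⟨fl z k, l, k, h.flip.swap, h3⟩
    · exact ⟨z, l, k, h.swap, h2⟩
  · exact ⟨z, k, l, h, h1⟩

theorem not_face {G : SimpleGraph (Fin n → ZMod 2)} (hfree : (Q 2).Free G) (z : Fin n → ZMod 2)
    (k l : Fin n) : ¬ Face G z k l := by
  intro h
  obtain ⟨f, -⟩ := exists_copy G h
  exact hfree ⟨f⟩

theorem sat_dirs {G : SimpleGraph (Fin n → ZMod 2)} (h : IsSat n G) (x : Fin n → ZMod 2)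
    (i : Fin n) (hi : i ∉ dirs G x) :
    ∃ j, j ∈ dirs G x ∧ i ∈ dirs G (fl x j) ∧ j ∈ dirs G (fl x i) := by
  obtain ⟨hG, hfree, hsat⟩ := h
  rw [mem_dirs] at hi
  have hQ : (Q n).Adj x (fl x i) := adj_iff.2 ⟨i, rfl⟩
  have h1 := hsat x (fl x i) hQ hi
  unfold SimpleGraph.Free at h1
  rw [not_not] at h1
  obtain ⟨f⟩ := h1
  obtain ⟨z, k, l, hface⟩ := copy_face _ (sup_le_Q hG hQ) f
  obtain ⟨z, k, l, hface, hnew⟩ := face_new hface (not_face hfree)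
  have key : Face (G ⊔ SimpleGraph.edge x (fl x i)) x i l := by
    have h2 := hface.2.1
    rw [SimpleGraph.sup_adj, SimpleGraph.edge_adj] at h2
    rcases h2 with h2 | ⟨⟨h2, h3⟩ | ⟨h2, h3⟩, -⟩
    · exact absurd h2 hnew
    · subst h2
      obtain rfl := fl_inj h3
      exact hface
    · have hk : k = i := by
        rw [h2] at h3
        have : fl (fl x i) k = fl (fl x i) i := by rw [h3, fl_fl]
        exact fl_inj this
      have h4 := hface.flip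
      rw [h3, hk] at h4
      exact h4
  obtain ⟨hil, -, h2, h3, h4⟩ := key
  refine ⟨l, ?_, ?_, ?_⟩ <;> rw [mem_dirs]
  · rw [SimpleGraph.sup_adj, SimpleGraph.edge_adj] at h2
    rcases h2 with h2 | ⟨⟨-, h5⟩ | ⟨h5, -⟩, -⟩
    · exact h2
    · exact absurd (fl_inj h5) hil.symm
    · exact absurd h5.symm (fl_ne x i)
  · rw [SimpleGraph.sup_adj, SimpleGraph.edge_adj] at h4
    rcases h4 with h4 | ⟨⟨h5, -⟩ | ⟨h5, -⟩, -⟩
    · exact h4
    · exact absurd h5 (fl_ne x l)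
    · exact absurd (fl_inj h5) hil.symm
  · rw [SimpleGraph.sup_adj, SimpleGraph.edge_adj] at h3
    rcases h3 with h3 | ⟨⟨h5, -⟩ | ⟨-, h5⟩, -⟩
    · exact h3
    · exact absurd h5 (fl_ne x i)
    · have : fl (fl x i) l = fl (fl x i) i := by rw [h5, fl_fl]
      exact absurd (fl_inj this) hil.symm

theorem free_dirs {G : SimpleGraph (Fin n → ZMod 2)} (h : IsSat n G) (x : Fin n → ZMod 2)
    (i j : Fin n) (hij : i ≠ j) (hi : i ∈ dirs G x) (hj : j ∈ dirs G x)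
    (hji : j ∈ dirs G (fl x i)) : i ∉ dirs G (fl x j) := by
  intro hi'
  rw [mem_dirs] at *
  exact not_face h.2.1 x i j ⟨hij, hi, hj, hji, hi'⟩

/-- The lower bound for saturated graphs. -/
theorem sat_lower : ∃ n₀ : ℕ, ∀ n : ℕ, n₀ ≤ n → ∀ G, IsSat n G →
    (18 / 5 : ℝ) * 2 ^ n ≤ (G.edgeSet.ncard : ℝ) := by
  obtain ⟨n₀, h₀⟩ := lower_final
  refine ⟨n₀, fun n hn G hG => ?_⟩
  have h1 := h₀ n hn (dirs G) (dirs_symm G) (sat_dirs hG) (free_dirs hG)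
  have h2 := two_card_edges G hG.1
  have h3 : (2 : ℝ) * (G.edgeSet.ncard : ℝ) = ∑ x, ((dirs G x).card : ℝ) := by
    exact_mod_cast h2
  linarith

/-- Every `Q 2`-free subgraph of `Q n` of maximal size is saturated. -/
theorem exists_sat (n : ℕ) : ∃ G, IsSat n G := by
  classical
  have hbot : (⊥ : SimpleGraph (Fin n → ZMod 2)) ≤ Q n ∧
      (Q 2).Free (⊥ : SimpleGraph (Fin n → ZMod 2)) := by
    refine ⟨bot_le, ?_⟩
    rintro ⟨f⟩
    have h1 : (Q 2).Adj (0 : Fin 2 → ZMod 2) (fl 0 0) := adj_iff.2 ⟨0, rfl⟩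
    exact f.toHom.map_adj h1
  obtain ⟨G, hG, hmax⟩ := Set.Finite.exists_maximal
    (s := {G : SimpleGraph (Fin n → ZMod 2) | G ≤ Q n ∧ (Q 2).Free G})
    (Set.toFinite _) ⟨⊥, hbot⟩
  refine ⟨G, hG.1, hG.2, ?_⟩
  intro x y hxy hn hfree
  have h1 := hmax (y := G ⊔ SimpleGraph.edge x y) ⟨sup_le_Q hG.1 hxy, hfree⟩ le_sup_left
  refine hn (h1 ?_)
  rw [SimpleGraph.sup_adj, SimpleGraph.edge_adj]
  exact Or.inr ⟨Or.inl ⟨rfl, rfl⟩, hxy.ne⟩

theorem satSet_nonempty (n : ℕ) : (satSet n).Nonempty := by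
  obtain ⟨G, hG⟩ := exists_sat n
  exact ⟨_, G, hG, rfl⟩

theorem sat_lower_bound : ∃ n₀ : ℕ, ∀ n : ℕ, n₀ ≤ n → (18 / 5 : ℝ) * 2 ^ n ≤ (sat n : ℝ) := by
  obtain ⟨n₀, h₀⟩ := sat_lower
  refine ⟨n₀, fun n hn => ?_⟩
  obtain ⟨G, hG, hcard⟩ := Nat.sInf_mem (satSet_nonempty n)
  have := h₀ n hn G hG
  rw [hcard] at this
  exact this

end Pool.Agent.Helper75.SatQ
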