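import Pool.Agent.Helper75.SatQ.Sat

/-!
Semi-saturated graphs with few edges from pairs of Hamming codes.
-/

set_option autoImplicit false

namespace Pool.Agent.Helper75.SatQ

section

variable {n k l : ℕ}

theorem add_self_zero {m : ℕ} (a : Fin m → ZMod 2) : a + a = 0 := by
  funext i
  show a i + a i = 0
  generalize a i = b
  revert b
  decide

theorem add_eq_zero_iff_eq' {m : ℕ} (a b : Fin m → ZMod 2) : a + b = 0 ↔ a = b := by
  constructor
  · intro h
    calc a = a + (b + b) := by rw [add_self_zero, add_zero]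
      _ = (a + b) + b := by rw [add_assoc]
      _ = b := by rw [h, zero_add]
  · rintro rfl
    exact add_self_zero a

/-- The syndrome of `x` with respect to the columns `c`. -/
def syn (c : Fin n → Fin k → ZMod 2) (x : Fin n → ZMod 2) : Fin k → ZMod 2 := ∑ i, x i • c i

theorem syn_fl (c : Fin n → Fin k → ZMod 2) (x : Fin n → ZMod 2) (i : Fin n) :
    syn c (fl x i) = syn c x + c i := by
  unfold syn
  have h1 : ∀ j, fl x i j • c j = x j • c j + (if j = i then c i else 0) := by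
    intro j
    rw [fl_apply]
    split_ifs with h
    · subst h
      rw [add_smul, one_smul]
    · rw [add_zero]
  rw [Finset.sum_congr rfl fun j _ => h1 j, Finset.sum_add_distrib]
  simp

theorem fiber_card (c : Fin n → Fin k → ZMod 2) (hc : ∀ w, w ≠ 0 → ∃ i, c i = w)
    (w : Fin k → ZMod 2) :
    ((Finset.univ.filter fun x => syn c x = w).card : ℝ) = 2 ^ n / 2 ^ k := by
  classical
  have h0 : ∀ w, (Finset.univ.filter fun x => syn c x = w).card =
      (Finset.univ.filter fun x => syn c x = 0).card := by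
    intro w
    by_cases hw : w = 0
    · rw [hw]
    · obtain ⟨i, hi⟩ := hc w hw
      refine Finset.card_bij (fun x _ => fl x i) ?_ ?_ ?_
      · intro x hx
        simp only [Finset.mem_filter, Finset.mem_univ, true_and] at hx ⊢
        rw [syn_fl, hx, hi, add_self_zero]
      · intro x _ y _ h
        have h2 := congrArg (fun z => fl z i) h
        simpa only [fl_fl] using h2
      · intro y hy
        simp only [Finset.mem_filter, Finset.mem_univ, true_and] at hy
        refine ⟨fl y i, ?_, fl_fl y i⟩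
        simp only [Finset.mem_filter, Finset.mem_univ, true_and]
        rw [syn_fl, hy, hi, zero_add]
  have h1 : ∑ w : Fin k → ZMod 2, (Finset.univ.filter fun x => syn c x = w).card = 2 ^ n := by
    have := Finset.card_eq_sum_card_fiberwise (f := syn c) (s := Finset.univ)
      (t := Finset.univ) (fun x _ => Finset.mem_univ _)
    rw [← this]
    simp [ZMod.card]
  rw [Finset.sum_congr rfl fun w _ => h0 w] at h1
  rw [Finset.sum_const, Finset.card_univ, Fintype.card_fun, ZMod.card, Fintype.card_fin,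
    smul_eq_mul] at h1
  rw [h0 w]
  have h2 : (2 : ℝ) ^ k * ((Finset.univ.filter fun x => syn c x = 0).card : ℝ) = 2 ^ n := by
    exact_mod_cast h1
  have h3 : (0 : ℝ) < 2 ^ k := by positivity
  field_simp
  linarith

/-- The directed edges of the construction. -/
def PP (c : Fin n → Fin k → ZMod 2) (c' : Fin n → Fin l → ZMod 2) (x : Fin n → ZMod 2)
    (i : Fin n) : Prop :=
  (syn c x = 0 ∨ syn c x + c i = 0) ∨
    ((c i ≠ 0 ∨ c' i ≠ 0) ∧ (syn c' x = 0 ∨ syn c' x + c' i = 0))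

theorem PP_fl (c : Fin n → Fin k → ZMod 2) (c' : Fin n → Fin l → ZMod 2) (x : Fin n → ZMod 2)
    (i : Fin n) (h : PP c c' x i) : PP c c' (fl x i) i := by
  unfold PP at *
  rw [syn_fl, syn_fl, add_assoc, add_assoc, add_self_zero, add_self_zero, add_zero, add_zero]
  tauto

/-- The semi-saturated graph of a pair of codes. -/
def GG (c : Fin n → Fin k → ZMod 2) (c' : Fin n → Fin l → ZMod 2) :
    SimpleGraph (Fin n → ZMod 2) where
  Adj x y := ∃ i, y = fl x i ∧ PP c c' x i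
  symm := ⟨by
    rintro x y ⟨i, rfl, h⟩
    exact ⟨i, (fl_fl x i).symm, PP_fl c c' x i h⟩⟩
  loopless := ⟨by
    rintro x ⟨i, h, -⟩
    exact fl_ne x i h.symm⟩

theorem GG_adj (c : Fin n → Fin k → ZMod 2) (c' : Fin n → Fin l → ZMod 2) (x : Fin n → ZMod 2)
    (i : Fin n) : (GG c c').Adj x (fl x i) ↔ PP c c' x i := by
  constructor
  · rintro ⟨j, h, hj⟩
    rw [fl_inj h]
    exact hj
  · intro h
    exact ⟨i, rfl, h⟩

theorem semi_of_dirs {G : SimpleGraph (Fin n → ZMod 2)} (hG : G ≤ Q n)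
    (h : ∀ x i, ¬ G.Adj x (fl x i) → ∃ j, j ≠ i ∧ G.Adj x (fl x j) ∧
      G.Adj (fl x j) (fl (fl x j) i) ∧ G.Adj (fl x i) (fl (fl x i) j)) : IsSemiSat n G := by
  refine ⟨hG, ?_⟩
  intro x y hxy hn
  obtain ⟨i, rfl⟩ := adj_iff.1 hxy
  obtain ⟨j, hji, h1, h2, h3⟩ := h x i hn
  have hf : Face (G ⊔ SimpleGraph.edge x (fl x i)) x i j := by
    refine ⟨hji.symm, ?_, ?_, ?_, ?_⟩
    · rw [SimpleGraph.sup_adj, SimpleGraph.edge_adj]
      exact Or.inr ⟨Or.inl ⟨rfl, rfl⟩, (fl_ne x i).symm⟩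
    · exact (le_sup_left : G ≤ _) h1
    · exact (le_sup_left : G ≤ _) h3
    · exact (le_sup_left : G ≤ _) h2
  obtain ⟨f, hfv⟩ := exists_copy _ hf
  have e0 : face x i j 0 = x := by
    unfold face
    simp
  refine ⟨f, 0, fl 0 0, adj_iff.2 ⟨0, rfl⟩, ?_, ?_⟩
  · rw [hfv, e0]
  · rw [hfv, face_fl_zero, e0]

theorem GG_semi (c : Fin n → Fin k → ZMod 2) (c' : Fin n → Fin l → ZMod 2)
    (hc : ∀ w, w ≠ 0 → ∃ i, c i = w) (hc' : ∀ w, w ≠ 0 → ∃ i, c' i = w)
    (hd : ∀ i, c i = 0 ∨ c' i = 0) : IsSemiSat n (GG c c') := by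
  refine semi_of_dirs ?_ ?_
  · rintro x y ⟨i, rfl, -⟩
    exact adj_iff.2 ⟨i, rfl⟩
  · intro x i hn
    rw [GG_adj] at hn
    have hn' := hn
    unfold PP at hn'
    push Not at hn'
    obtain ⟨⟨hn1, hn2⟩, hn3⟩ := hn'
    simp only [GG_adj]
    by_cases hi : c i = 0
    · obtain ⟨j, hj⟩ := hc _ hn1
      have hjn : c j ≠ 0 := by rw [hj]; exact hn1
      refine ⟨j, ?_, ?_, ?_, ?_⟩
      · rintro rfl
        exact hjn hi
      · left; right
        rw [hj, add_self_zero]
      · left; left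
        rw [syn_fl, hj, add_self_zero]
      · left; right
        rw [syn_fl, hi, add_zero, hj, add_self_zero]
    · have hi' : c' i = 0 := (hd i).resolve_left hi
      have hs := (hn3 (Or.inl hi)).1
      obtain ⟨j, hj⟩ := hc' _ hs
      have hjn : c' j ≠ 0 := by rw [hj]; exact hs
      refine ⟨j, ?_, ?_, ?_, ?_⟩
      · rintro rfl
        exact hjn hi'
      · right
        refine ⟨Or.inr hjn, Or.inr ?_⟩
        rw [hj, add_self_zero]
      · right
        refine ⟨Or.inl hi, Or.inl ?_⟩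
        rw [syn_fl, hj, add_self_zero]
      · right
        refine ⟨Or.inr hjn, Or.inr ?_⟩
        rw [syn_fl, hi', add_zero, hj, add_self_zero]

open Classical in
theorem PP_le (c : Fin n → Fin k → ZMod 2) (c' : Fin n → Fin l → ZMod 2)
    (hd : ∀ i, c i = 0 ∨ c' i = 0) (x : Fin n → ZMod 2) (i : Fin n) :
    (if PP c c' x i then (1 : ℝ) else 0) ≤
      (if syn c x = 0 then (1 : ℝ) else 0) +
      (if c i ≠ 0 then (if syn c x = c i then (1 : ℝ) else 0) else 0) +
      (if c i ≠ 0 then (if syn c' x = 0 then (1 : ℝ) else 0) else 0) +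
      (if c' i ≠ 0 then ((if syn c' x = 0 then (1 : ℝ) else 0) +
        (if syn c' x = c' i then (1 : ℝ) else 0)) else 0) := by
  have hnn : (0 : ℝ) ≤ (if syn c x = 0 then (1 : ℝ) else 0) +
      (if c i ≠ 0 then (if syn c x = c i then (1 : ℝ) else 0) else 0) +
      (if c i ≠ 0 then (if syn c' x = 0 then (1 : ℝ) else 0) else 0) +
      (if c' i ≠ 0 then ((if syn c' x = 0 then (1 : ℝ) else 0) +
        (if syn c' x = c' i then (1 : ℝ) else 0)) else 0) := by
    split_ifs <;> norm_num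
  by_cases hP : PP c c' x i
  · rw [if_pos hP]
    unfold PP at hP
    rw [add_eq_zero_iff_eq', add_eq_zero_iff_eq'] at hP
    by_cases h1 : syn c x = 0
    · rw [if_pos h1]
      split_ifs <;> norm_num
    · by_cases h2 : c i = 0
      · -- then c' i ≠ 0
        rw [h2] at hP
        have h3 : c' i ≠ 0 ∧ (syn c' x = 0 ∨ syn c' x = c' i) := by tauto
        rw [if_pos h3.1]
        rcases h3.2 with h4 | h4
        · rw [if_pos h4]
          split_ifs <;> norm_num
        · rw [if_pos h4]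
          split_ifs <;> norm_num
      · have h3 : c' i = 0 := (hd i).resolve_left h2
        rw [h3] at hP
        have h4 : syn c x = c i ∨ syn c' x = 0 := by tauto
        rw [if_pos h2, if_pos h2]
        rcases h4 with h4 | h4
        · rw [if_pos h4]
          split_ifs <;> norm_num
        · rw [if_pos h4]
          split_ifs <;> norm_num
  · rw [if_neg hP]
    exact hnn

open Classical in
theorem GG_card (c : Fin n → Fin k → ZMod 2) (c' : Fin n → Fin l → ZMod 2)
    (hc : ∀ w, w ≠ 0 → ∃ i, c i = w) (hc' : ∀ w, w ≠ 0 → ∃ i, c' i = w)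
    (hd : ∀ i, c i = 0 ∨ c' i = 0)
    (h1 : (Finset.univ.filter fun i => c i ≠ 0).card + 1 ≤ 2 ^ k)
    (h2 : (Finset.univ.filter fun i => c' i ≠ 0).card + 1 ≤ 2 ^ l) :
    2 * ((GG c c').edgeSet.ncard : ℝ) ≤
      (n + (2 ^ k - 1)) * (2 ^ n / 2 ^ k) + ((2 ^ k - 1) + 2 * (2 ^ l - 1)) * (2 ^ n / 2 ^ l) := by
  have hG : GG c c' ≤ Q n := by
    rintro x y ⟨i, rfl, -⟩
    exact adj_iff.2 ⟨i, rfl⟩
  have e1 := two_card_edges _ hG
  have e2 : 2 * ((GG c c').edgeSet.ncard : ℝ) = ∑ x, ∑ i, if PP c c' x i then (1 : ℝ) else 0 := by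
    have : 2 * ((GG c c').edgeSet.ncard : ℝ) = ∑ x, ((dirs (GG c c') x).card : ℝ) := by
      exact_mod_cast e1
    rw [this]
    refine Finset.sum_congr rfl fun x _ => ?_
    rw [Finset.sum_boole]
    congr 2
    ext i
    rw [mem_dirs, GG_adj]
    simp
  rw [e2, Finset.sum_comm]
  have hf : ∀ w, ∑ x, (if syn c x = w then (1 : ℝ) else 0) = 2 ^ n / 2 ^ k := by
    intro w
    rw [Finset.sum_boole]
    exact fiber_card c hc w
  have hf' : ∀ w, ∑ x, (if syn c' x = w then (1 : ℝ) else 0) = 2 ^ n / 2 ^ l := by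
    intro w
    rw [Finset.sum_boole]
    exact fiber_card c' hc' w
  have hq : (0 : ℝ) ≤ 2 ^ n / 2 ^ k := by positivity
  have hq' : (0 : ℝ) ≤ 2 ^ n / 2 ^ l := by positivity
  have hi : ∀ i, ∑ x, (if PP c c' x i then (1 : ℝ) else 0) ≤
      2 ^ n / 2 ^ k + (if c i ≠ 0 then (2 ^ n / 2 ^ k + 2 ^ n / 2 ^ l : ℝ) else 0) +
      (if c' i ≠ 0 then (2 * (2 ^ n / 2 ^ l) : ℝ) else 0) := by
    intro i
    refine (Finset.sum_le_sum fun x _ => PP_le c c' hd x i).trans ?_
    rw [Finset.sum_add_distrib, Finset.sum_add_distrib, Finset.sum_add_distrib, hf]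
    by_cases g1 : c i = 0
    · by_cases g2 : c' i = 0
      · simp [g1, g2]
      · simp only [g1, g2, ne_eq, not_true_eq_false, if_false, not_false_eq_true, if_true,
          Finset.sum_const_zero, add_zero]
        rw [Finset.sum_add_distrib, hf', hf']
        linarith
    · have g2 := (hd i).resolve_left g1
      simp only [g1, g2, ne_eq, not_true_eq_false, if_false, not_false_eq_true, if_true,
          Finset.sum_const_zero, add_zero]
      rw [hf, hf']
      linarith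
  refine (Finset.sum_le_sum fun i _ => hi i).trans ?_
  rw [Finset.sum_add_distrib, Finset.sum_add_distrib, ← Finset.sum_filter, ← Finset.sum_filter,
    Finset.sum_const, Finset.sum_const, Finset.sum_const, Finset.card_univ, Fintype.card_fin,
    nsmul_eq_mul, nsmul_eq_mul, nsmul_eq_mul]
  have h1' : ((Finset.univ.filter fun i => c i ≠ 0).card : ℝ) ≤ 2 ^ k - 1 := by
    have : ((Finset.univ.filter fun i => c i ≠ 0).card : ℝ) + 1 ≤ 2 ^ k := by exact_mod_cast h1
    linarith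
  have h2' : ((Finset.univ.filter fun i => c' i ≠ 0).card : ℝ) ≤ 2 ^ l - 1 := by
    have : ((Finset.univ.filter fun i => c' i ≠ 0).card : ℝ) + 1 ≤ 2 ^ l := by exact_mod_cast h2
    linarith
  have h3 := mul_le_mul_of_nonneg_right h1' (add_nonneg hq hq')
  have h4 := mul_le_mul_of_nonneg_right h2' (mul_nonneg (zero_le_two (α := ℝ)) hq')
  generalize (2 ^ n / 2 ^ k : ℝ) = q at *
  generalize (2 ^ n / 2 ^ l : ℝ) = q' at *
  nlinarith

theorem exists_codes (h : 2 ^ k + 2 ^ l ≤ n + 2) :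
    ∃ (c : Fin n → Fin k → ZMod 2) (c' : Fin n → Fin l → ZMod 2),
      (∀ w, w ≠ 0 → ∃ i, c i = w) ∧ (∀ w, w ≠ 0 → ∃ i, c' i = w) ∧
      (∀ i, c i = 0 ∨ c' i = 0) ∧
      ((Finset.univ.filter fun i => c i ≠ 0).card + 1 ≤ 2 ^ k) ∧
      ((Finset.univ.filter fun i => c' i ≠ 0).card + 1 ≤ 2 ^ l) := by
  classical
  have hcard : ∀ m : ℕ, Fintype.card {w : Fin m → ZMod 2 // w ≠ 0} + 1 = 2 ^ m := by
    intro m
    have h1 : Fintype.card (Fin m → ZMod 2) = 2 ^ m := by
      rw [Fintype.card_fun, ZMod.card, Fintype.card_fin]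
    have h2 : Fintype.card {w : Fin m → ZMod 2 // ¬ w = 0} =
        Fintype.card (Fin m → ZMod 2) - Fintype.card {w : Fin m → ZMod 2 // w = 0} :=
      Fintype.card_subtype_compl _
    have h3 : Fintype.card {w : Fin m → ZMod 2 // w = 0} = 1 := Fintype.card_unique
    have h4 : 0 < 2 ^ m := by positivity
    show Fintype.card {w : Fin m → ZMod 2 // ¬ w = 0} + 1 = 2 ^ m
    rw [h2, h3, h1]
    omega
  obtain ⟨φ⟩ : Nonempty (({w : Fin k → ZMod 2 // w ≠ 0} ⊕ {w : Fin l → ZMod 2 // w ≠ 0}) ↪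
      Fin n) := by
    apply Function.Embedding.nonempty_of_card_le
    rw [Fintype.card_sum, Fintype.card_fin]
    have := hcard k
    have := hcard l
    omega
  let c : Fin n → Fin k → ZMod 2 := fun i =>
    if h : ∃ w, φ (Sum.inl w) = i then (h.choose : Fin k → ZMod 2) else 0
  let c' : Fin n → Fin l → ZMod 2 := fun i =>
    if h : ∃ w, φ (Sum.inr w) = i then (h.choose : Fin l → ZMod 2) else 0
  have hcφ : ∀ w, c (φ (Sum.inl w)) = w := by
    intro w
    have h : ∃ w', φ (Sum.inl w') = φ (Sum.inl w) := ⟨w, rfl⟩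
    have h1 : c (φ (Sum.inl w)) = (h.choose : Fin k → ZMod 2) := dif_pos h
    rw [h1]
    have h2 := φ.injective h.choose_spec
    rw [Sum.inl.inj h2]
  have hcφ' : ∀ w, c' (φ (Sum.inr w)) = w := by
    intro w
    have h : ∃ w', φ (Sum.inr w') = φ (Sum.inr w) := ⟨w, rfl⟩
    have h1 : c' (φ (Sum.inr w)) = (h.choose : Fin l → ZMod 2) := dif_pos h
    rw [h1]
    have h2 := φ.injective h.choose_spec
    rw [Sum.inr.inj h2]
  have hcn : ∀ i, c i ≠ 0 → ∃ w, φ (Sum.inl w) = i := by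
    intro i hi
    by_contra hcon
    exact hi (dif_neg hcon)
  have hcn' : ∀ i, c' i ≠ 0 → ∃ w, φ (Sum.inr w) = i := by
    intro i hi
    by_contra hcon
    exact hi (dif_neg hcon)
  refine ⟨c, c', ?_, ?_, ?_, ?_, ?_⟩
  · intro w hw
    exact ⟨φ (Sum.inl ⟨w, hw⟩), hcφ ⟨w, hw⟩⟩
  · intro w hw
    exact ⟨φ (Sum.inr ⟨w, hw⟩), hcφ' ⟨w, hw⟩⟩
  · intro i
    by_contra hcon
    push Not at hcon
    obtain ⟨w, hw⟩ := hcn i hcon.1
    obtain ⟨w', hw'⟩ := hcn' i hcon.2
    have := φ.injective (hw.trans hw'.symm)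
    exact absurd this (by simp)
  · rw [← hcard k]
    apply Nat.add_le_add_right
    have h1 : (Finset.univ.filter fun i => c i ≠ 0) ⊆
        Finset.univ.image fun w => φ (Sum.inl w) := by
      intro i hi
      simp only [Finset.mem_filter, Finset.mem_univ, true_and] at hi
      obtain ⟨w, hw⟩ := hcn i hi
      exact Finset.mem_image.2 ⟨w, Finset.mem_univ _, hw⟩
    refine (Finset.card_le_card h1).trans (Finset.card_image_le.trans ?_)
    rw [Finset.card_univ]
  · rw [← hcard l]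
    apply Nat.add_le_add_right
    have h1 : (Finset.univ.filter fun i => c' i ≠ 0) ⊆
        Finset.univ.image fun w => φ (Sum.inr w) := by
      intro i hi
      simp only [Finset.mem_filter, Finset.mem_univ, true_and] at hi
      obtain ⟨w, hw⟩ := hcn' i hi
      exact Finset.mem_image.2 ⟨w, Finset.mem_univ _, hw⟩
    refine (Finset.card_le_card h1).trans (Finset.card_image_le.trans ?_)
    rw [Finset.card_univ]

theorem semi_bound (h : 2 ^ k + 2 ^ l ≤ n + 2) : ∃ G, IsSemiSat n G ∧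
    2 * (G.edgeSet.ncard : ℝ) ≤
      (n + (2 ^ k - 1)) * (2 ^ n / 2 ^ k) + ((2 ^ k - 1) + 2 * (2 ^ l - 1)) * (2 ^ n / 2 ^ l) := by
  obtain ⟨c, c', h1, h2, h3, h4, h5⟩ := exists_codes h
  exact ⟨GG c c', GG_semi c c' h1 h2 h3, GG_card c c' h1 h2 h3 (by convert h4) (by convert h5)⟩

end

theorem semi_seven_half (n : ℕ) (hn : 3 ≤ n) : ∃ G, IsSemiSat n G ∧
    (G.edgeSet.ncard : ℝ) ≤ 7 / 2 * 2 ^ n := by
  -- choose the dyadic scale
  obtain ⟨m, hm1, hm2⟩ : ∃ m : ℕ, 3 * 2 ^ m ≤ n ∧ n < 6 * 2 ^ m := by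
    refine ⟨Nat.log 2 (n / 3), ?_, ?_⟩
    · have h1 : 2 ^ Nat.log 2 (n / 3) ≤ n / 3 := Nat.pow_log_le_self 2 (by omega)
      omega
    · have h1 : n / 3 < 2 ^ (Nat.log 2 (n / 3) + 1) := Nat.lt_pow_succ_log_self (by norm_num) _
      rw [pow_succ] at h1
      omega
  have hq : (0 : ℝ) < 2 ^ n := by positivity
  have hp : (0 : ℝ) < 2 ^ m := by positivity
  have hm2' : (n : ℝ) ≤ 6 * 2 ^ m := by exact_mod_cast hm2.le
  by_cases h4 : 4 * 2 ^ m ≤ n
  · obtain ⟨G, hG, hle⟩ := semi_bound (n := n) (k := m + 1) (l := m + 1) (by rw [pow_succ]; omega)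
    refine ⟨G, hG, ?_⟩
    have e : (2 : ℝ) ^ n / 2 ^ (m + 1) = (2 ^ n / 2 ^ m) / 2 := by
      rw [pow_succ]; field_simp
    have e2 : (2 : ℝ) ^ n = (2 ^ n / 2 ^ m) * 2 ^ m := by field_simp
    have hr : (0 : ℝ) < 2 ^ n / 2 ^ m := by positivity
    rw [e] at hle
    rw [pow_succ] at hle
    rw [e2]
    generalize (2 : ℝ) ^ n / 2 ^ m = r at *
    generalize (2 : ℝ) ^ m = M at *
    nlinarith
  · have h4' : (n : ℝ) ≤ 4 * 2 ^ m := by
      push Not at h4
      exact_mod_cast h4.le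
    obtain ⟨G, hG, hle⟩ := semi_bound (n := n) (k := m + 1) (l := m) (by rw [pow_succ]; omega)
    refine ⟨G, hG, ?_⟩
    have e : (2 : ℝ) ^ n / 2 ^ (m + 1) = (2 ^ n / 2 ^ m) / 2 := by
      rw [pow_succ]; field_simp
    have e2 : (2 : ℝ) ^ n = (2 ^ n / 2 ^ m) * 2 ^ m := by field_simp
    have hr : (0 : ℝ) < 2 ^ n / 2 ^ m := by positivity
    rw [e] at hle
    rw [pow_succ] at hle
    rw [e2]
    generalize (2 : ℝ) ^ n / 2 ^ m = r at *
    generalize (2 : ℝ) ^ m = M at *
    nlinarith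

theorem semiSatSet_nonempty (n : ℕ) : (semiSatSet n).Nonempty := by
  refine ⟨_, Q n, ⟨le_rfl, ?_⟩, rfl⟩
  intro x y h1 h2
  exact absurd h1 h2

theorem ssat_upper (n : ℕ) (hn : 3 ≤ n) : (ssat n : ℝ) ≤ 7 / 2 * 2 ^ n := by
  obtain ⟨G, hG, hle⟩ := semi_seven_half n hn
  have h1 : ssat n ≤ G.edgeSet.ncard := Nat.sInf_le ⟨G, hG, rfl⟩
  have h2 : (ssat n : ℝ) ≤ (G.edgeSet.ncard : ℝ) := by exact_mod_cast h1
  exact h2.trans hle

end Pool.Agent.Helper75.SatQ
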